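import Pool.Agent.Helper21.CT.XQK

set_option autoImplicit false
set_option exponentiation.threshold 4000
noncomputable section
namespace Pool.Agent.Helper81.TK.XQ14
open Pool.Agent.Helper86.C75 (Z)
open Pool.Agent.Helper86.CX (Cx)
open Pool.Agent.Helper86.CT (N3)
open Pool.Agent.Helper86.CK (PA AK hC4 fr4 qd4k rtK lfK)
open Pool.Agent.Helper21.KTE (KS)
open Pool.Agent.Helper21.XB
open Pool.Agent.Helper39.NFT (lqr)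
def C0 : N3 (N3 (N3 (N3 Cx))) := (N3.k (N3.q (N3.q (N3.q ⟨(Z.m 84306137077542), (Z.p 0)⟩ ⟨(Z.m 82062079436145), (Z.p 0)⟩ ⟨(Z.m 81785171431171), (Z.p 0)⟩) (N3.q ⟨(Z.m 82062079436145), (Z.p 0)⟩ ⟨(Z.m 79248081277791), (Z.p 0)⟩ ⟨(Z.m 78349711877959), (Z.p 0)⟩) (N3.q ⟨(Z.m 81785171431171), (Z.p 0)⟩ ⟨(Z.m 78349711877959), (Z.p 0)⟩ ⟨(Z.m 76915997597469), (Z.p 0)⟩)) (N3.q (N3.q ⟨(Z.m 82062079436145), (Z.p 0)⟩ ⟨(Z.m 79248081277791), (Z.p 0)⟩ ⟨(Z.m 78349711877959), (Z.p 0)⟩) (N3.q ⟨(Z.m 79248081277791), (Z.p 0)⟩ ⟨(Z.m 75960076080320), (Z.p 0)⟩ ⟨(Z.m 74539495280534), (Z.p 0)⟩) (N3.q ⟨(Z.m 78349711877959), (Z.p 0)⟩ ⟨(Z.m 74539495280534), (Z.p 0)⟩ ⟨(Z.m 72658045212648), (Z.p 0)⟩)) (N3.q (N3.q ⟨(Z.m 81785171431171), (Z.p 0)⟩ ⟨(Z.m 78349711877959), (Z.p 0)⟩ ⟨(Z.m 76915997597469),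 (Z.p 0)⟩) (N3.q ⟨(Z.m 78349711877959), (Z.p 0)⟩ ⟨(Z.m 74539495280534), (Z.p 0)⟩ ⟨(Z.m 72658045212648), (Z.p 0)⟩) (N3.q ⟨(Z.m 76915997597469), (Z.p 0)⟩ ⟨(Z.m 72658045212648), (Z.p 0)⟩ ⟨(Z.m 70368744177664), (Z.p 0)⟩))))
def C : N3 (N3 (N3 (N3 Cx))) := (N3.k (N3.q (N3.q (N3.q ⟨(Z.m 530521975018410), (Z.p 0)⟩ ⟨(Z.m 531614497356820), (Z.p 0)⟩ ⟨(Z.m 532427765238976), (Z.p 0)⟩) (N3.q ⟨(Z.m 531614497356820), (Z.p 0)⟩ ⟨(Z.m 532737890032417), (Z.p 0)⟩ ⟨(Z.m 533585488684064), (Z.p 0)⟩) (N3.q ⟨(Z.m 532427765238976), (Z.p 0)⟩ ⟨(Z.m 533585488684064), (Z.p 0)⟩ ⟨(Z.m 534463736174765), (Z.p 0)⟩)) (N3.q (N3.q ⟨(Z.m 531614497356820), (Z.p 0)⟩ ⟨(Z.m 532737890032417), (Z.p 0)⟩ ⟨(Z.m 533585488684064), (Z.p 0)⟩) (N3.q ⟨(Z.m 532737890032417), (Z.p 0)⟩ ⟨(Z.m 533881925846759), (Z.p 0)⟩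 ⟨(Z.m 534754364711972), (Z.p 0)⟩) (N3.q ⟨(Z.m 533585488684064), (Z.p 0)⟩ ⟨(Z.m 534754364711972), (Z.p 0)⟩ ⟨(Z.m 535649674107421), (Z.p 0)⟩)) (N3.q (N3.q ⟨(Z.m 532427765238976), (Z.p 0)⟩ ⟨(Z.m 533585488684064), (Z.p 0)⟩ ⟨(Z.m 534463736174765), (Z.p 0)⟩) (N3.q ⟨(Z.m 533585488684064), (Z.p 0)⟩ ⟨(Z.m 534754364711972), (Z.p 0)⟩ ⟨(Z.m 535649674107421), (Z.p 0)⟩) (N3.q ⟨(Z.m 534463736174765), (Z.p 0)⟩ ⟨(Z.m 535649674107421), (Z.p 0)⟩ ⟨(Z.m 536561674354688), (Z.p 0)⟩))))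
theorem xq : XQD 3 (lfK : PA 4 → Pool.Agent.Helper90.C75.Vt 4 → ℂ) (AK hC4) qd4k rtK (fr4 C0) 552861428912 (fr4 C) 7163399894 (KS.T 2 548835622649856 562949953421312)
    (KS.T 1 548835622649856 562949953421312) (KS.T 0 548835622649856 562949953421312) (lqr C) :=
  xqdk (by decide +kernel) (by decide +kernel) (by decide +kernel)
end Pool.Agent.Helper81.TK.XQ14
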